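import Pool.Agent.Helper10.RC.Basic

/-! Packet RC-CuAdd (MP_b55b7c_an). -/

open scoped ENNReal NNReal InnerProductSpace ComplexOrder
open Filter Topology

attribute [-instance] CStarMatrix.instAlgebra CStarMatrix.instModule CStarMatrix.instSMul
  CStarMatrix.instMulAction CStarMatrix.instDistribMulAction

noncomputable section
namespace RC
universe u

/-- the row `[1 1]` -/
def rowTwo65 (A : Type u) [CStarAlgebra A] (ι : Type) [DecidableEq ι] : CStarMatrix ι (ι ⊕ ι) A :=
  CStarMatrix.ofMatrix (Matrix.fromCols 1 1)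

theorem rowTwo65_dsum {A : Type u} [CStarAlgebra A] {ι : Type} [Fintype ι] [DecidableEq ι]
    (X Y : CStarMatrix ι ι A) :
    rowTwo65 A ι * dsum X Y * (rowTwo65 A ι).conjTranspose = X + Y := by
  have h : (Matrix.fromCols (1 : Matrix ι ι A) (1 : Matrix ι ι A)) *
      (Matrix.fromBlocks (CStarMatrix.ofMatrix.symm X) 0 0 (CStarMatrix.ofMatrix.symm Y)) *
      (Matrix.fromCols (1 : Matrix ι ι A) (1 : Matrix ι ι A)).conjTranspose =
      CStarMatrix.ofMatrix.symm X + CStarMatrix.ofMatrix.symm Y := by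
    rw [Matrix.fromCols_mul_fromBlocks, Matrix.conjTranspose_fromCols_eq_fromRows_conjTranspose,
      Matrix.fromCols_mul_fromRows]
    simp
  exact h

theorem cuAddP (h1 : CuLeAddP.{u}) : CuAddP.{u} := by
  intro A _ _ _ ι _ _ a b s t hs ht ha hb ε hε
  have hX : a + b ≤ (cut a s + cut b t) + (s + t) • (1 : CStarMatrix ι ι A) := by
    have e1 := le_cut_add ha.isSelfAdjoint s
    have e2 := le_cut_add hb.isSelfAdjoint t
    calc a + b ≤ (cut a s + s • 1) + (cut b t + t • 1) := add_le_add e1 e2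
      _ = _ := by rw [add_smul]; abel
  obtain ⟨v, hv⟩ := h1 A ι (a + b) (cut a s + cut b t) (s + t) (add_nonneg hs ht)
    (add_nonneg ha hb) (add_nonneg (cut_nonneg _ _) (cut_nonneg _ _)) hX ε hε
  refine ⟨v * rowTwo65 A ι, ?_⟩
  have h2 : v * rowTwo65 A ι * dsum (cut a s) (cut b t) * (v * rowTwo65 A ι).conjTranspose =
      v * (cut a s + cut b t) * v.conjTranspose := by
    rw [cm_conj_mul, ← rowTwo65_dsum (cut a s) (cut b t)]
    simp only [cm_assoc]
  rw [h2]
  exact hv

end RC
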